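import Pool.Agent.H.MP_af75b4_an.D

set_option autoImplicit false

namespace Pool.Agent.Results.MP_af75b4_an.No

open MeasureTheory

abbrev E := EuclideanSpace ℝ (Fin 3)

abbrev Sph := Metric.sphere (0 : E) 1

noncomputable def vol : Measure Sph := (volume : Measure E).toSphere

def tube (n : Sph) (R : ℝ) : Set Sph :=
  {x | ∃ y : Sph, inner ℝ n.1 y.1 = 0 ∧ InnerProductGeometry.angle x.1 y.1 < R}

def TGCC (A : ℝ → Set Sph) : Prop :=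
  ∃ c : ℝ, 0 < c ∧ ∃ ρ : ℝ, 0 < ρ ∧ ∀ (n : Sph) (l : ℝ), 1 ≤ l →
    ρ * vol.real (tube n (c * l ^ (-(1 / 2) : ℝ))) ≤
      vol.real (A l ∩ tube n (c * l ^ (-(1 / 2) : ℝ)))

def Eig (l : ℝ) (e : Sph → ℂ) : Prop :=
  ∃ (k : ℕ) (P : MvPolynomial (Fin 3) ℂ), P.IsHomogeneous k ∧
    ∑ i, MvPolynomial.pderiv i (MvPolynomial.pderiv i P) = 0 ∧ l ^ 2 = k * (k + 1) ∧
    ∀ x, e x = MvPolynomial.eval (fun i => (x.1 i : ℂ)) P

def LS (p : ℝ) (A : ℝ → Set Sph) : Prop :=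
  ∃ C : ℝ, 0 < C ∧ ∀ l : ℝ, 1 ≤ l → ∀ e : Sph → ℂ, Eig l e →
    C * ∫ x, ‖e x‖ ^ p ∂vol ≤ ∫ x in A l, ‖e x‖ ^ p ∂vol

theorem result : ∃ B : Set Sph, MeasurableSet B ∧ TGCC (fun _ => B) ∧
    ∀ p : ℝ, 1 ≤ p → p < 2 → ¬ LS p (fun _ => B) := by
  open Pool.Agent.H.MP_af75b4_an in
  refine ⟨A, A_meas, ⟨1 / 25, by norm_num, 1 / 32000, by norm_num, fun n l hl => ?_⟩, ?_⟩
  · have a : 0 < l ^ (-(1 / 2) : ℝ) := Real.rpow_pos_of_pos (by linarith) _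
    have b : l ^ (-(1 / 2) : ℝ) ≤ 1 := Real.rpow_le_one_of_one_le_of_nonpos hl (by norm_num)
    have c := tube_le n (1 / 25 * l ^ (-(1 / 2) : ℝ)) (by positivity)
    have d := tube_ge n (1 / 25 * l ^ (-(1 / 2) : ℝ)) (by positivity) (by linarith)
    exact (mul_le_mul_of_nonneg_left c (by norm_num)).trans (le_trans (le_of_eq (by ring)) d)
  · rintro p h1 h2 ⟨C, hC, h⟩
    obtain ⟨k, hk, P, p1, p2, p3⟩ := main p h1 h2 C hC
    have k1 : (1 : ℝ) ≤ k := by exact_mod_cast hk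
    exact absurd (h (√(k * (k + 1))) (Real.le_sqrt_of_sq_le (by nlinarith)) _
      ⟨k, P, p1, p2, Real.sq_sqrt (by positivity), fun _ => rfl⟩) (not_le.2 p3)

end Pool.Agent.Results.MP_af75b4_an.No
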